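import Pool.Agent.DBar74.Main
import Pool.Agent.DBar74.Dom3

open MeasureTheory Filter Topology Complex
open scoped ENNReal ContDiff ComplexConjugate InnerProductSpace

namespace Pool.Agent.Results.MP_54f31c_an.DiscCompactNeumann

/-!
# A smooth bounded pseudoconvex domain with a disc in its boundary and compact Neumann operator

All notions are spelled out below for subsets `Ω` of `ℂⁿ = (Fin n → ℂ)`.
-/

variable {n : ℕ}

/-- Lebesgue measure on `Ω`. -/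
noncomputable abbrev leb (Ω : Set (Fin n → ℂ)) : Measure (Fin n → ℂ) := volume.restrict Ω

/-- `L²(Ω)` with respect to Lebesgue measure. -/
noncomputable abbrev L2Fun (Ω : Set (Fin n → ℂ)) : Type := Lp ℂ 2 (leb Ω)

/-- `L²`-forms of type `(0,1)`: `f = ∑ f j dz̄_j`, with the norm `‖f‖² = ∑ ‖f j‖²`. -/
noncomputable abbrev L2Form01 (Ω : Set (Fin n → ℂ)) : Type := PiLp 2 (fun _ : Fin n => L2Fun Ω)

/-- Pairs `j < k` of indices. -/
abbrev IndexPair (n : ℕ) : Type := {p : Fin n × Fin n // p.1 < p.2}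

/-- `L²`-forms of type `(0,2)`: `h = ∑_{j<k} h (j,k) dz̄_j ∧ dz̄_k`, with the norm
`‖h‖² = ∑_{j<k} ‖h (j,k)‖²`. -/
noncomputable abbrev L2Form02 (Ω : Set (Fin n → ℂ)) : Type := PiLp 2 (fun _ : IndexPair n => L2Fun Ω)

/-- The derivative `∂χ/∂z̄_j` at `x`. -/
noncomputable def dbarDeriv (j : Fin n) (χ : (Fin n → ℂ) → ℂ) (x : Fin n → ℂ) : ℂ :=
  (1 / 2) * (fderiv ℝ χ x (Pi.single j 1) + I * fderiv ℝ χ x (Pi.single j I))

/-- Smooth functions with compact support contained in `Ω`. -/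
def IsTestFunction (Ω : Set (Fin n → ℂ)) (χ : (Fin n → ℂ) → ℂ) : Prop :=
  ContDiff ℝ ∞ χ ∧ HasCompactSupport χ ∧ tsupport χ ⊆ Ω

/-- The maximal `∂̄` on functions: `u ∈ Dom ∂̄` and `∂̄u = f`, in the sense of distributions on `Ω`. -/
def Dbar0 (Ω : Set (Fin n → ℂ)) (u : L2Fun Ω) (f : L2Form01 Ω) : Prop :=
  ∀ χ, IsTestFunction Ω χ → ∀ j : Fin n,
    ∫ x, u x * dbarDeriv j χ x ∂(leb Ω) = - ∫ x, f j x * χ x ∂(leb Ω)

/-- The maximal `∂̄` on `(0,1)`-forms: `f ∈ Dom ∂̄` and `∂̄f = h`, where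
`(∂̄f)_{jk} = ∂f_k/∂z̄_j - ∂f_j/∂z̄_k` in the sense of distributions on `Ω`. -/
def Dbar1 (Ω : Set (Fin n → ℂ)) (f : L2Form01 Ω) (h : L2Form02 Ω) : Prop :=
  ∀ χ, IsTestFunction Ω χ → ∀ p : IndexPair n,
    ∫ x, (f p.1.2 x * dbarDeriv p.1.1 χ x - f p.1.1 x * dbarDeriv p.1.2 χ x) ∂(leb Ω)
      = - ∫ x, h p x * χ x ∂(leb Ω)

/-- `IsAdjointPair D v w` says: `v` lies in the domain of the Hilbert space adjoint of the operator
with graph `D`, and the adjoint maps `v` to `w`. -/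
def IsAdjointPair {H K : Type*} [NormedAddCommGroup H] [InnerProductSpace ℂ H]
    [NormedAddCommGroup K] [InnerProductSpace ℂ K] (D : H → K → Prop) (v : K) (w : H) : Prop :=
  ∀ a b, D a b → ⟪w, a⟫_ℂ = ⟪v, b⟫_ℂ

/-- For (graphs of) operators `D₀ : H₀ → H₁` and `D₁ : H₁ → H₂`: the graph of
`□ = D₀ D₀* + D₁* D₁` with its natural domain, that is `f ∈ Dom □` and `□ f = γ`. -/
def LaplaceGraph {H₀ H₁ H₂ : Type*} [NormedAddCommGroup H₀] [InnerProductSpace ℂ H₀]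
    [NormedAddCommGroup H₁] [InnerProductSpace ℂ H₁] [NormedAddCommGroup H₂]
    [InnerProductSpace ℂ H₂] (D₀ : H₀ → H₁ → Prop) (D₁ : H₁ → H₂ → Prop) (f γ : H₁) : Prop :=
  ∃ (u : H₀) (h : H₂) (γ₁ γ₂ : H₁),
    IsAdjointPair D₀ f u ∧ D₀ u γ₁ ∧ D₁ f h ∧ IsAdjointPair D₁ h γ₂ ∧ γ = γ₁ + γ₂

/-- The operator with graph `B` (`B f γ` meaning that `f` is in the domain and is mapped to `γ`)
is bijective from its domain onto `H` and its inverse `N` is a bounded and compact operator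
on `H`. -/
def HasCompactInverse {H : Type*} [NormedAddCommGroup H] [InnerProductSpace ℂ H]
    (B : H → H → Prop) : Prop :=
  ∃ N : H →L[ℂ] H, (∀ f γ, N γ = f ↔ B f γ) ∧ IsCompactOperator N

/-- The `∂̄`-Neumann operator `N₁` of `Ω`, the bounded inverse on `L²_{(0,1)}(Ω)` of
`□₁ = ∂̄∂̄* + ∂̄*∂̄`, exists and is compact. -/
def NeumannOperatorIsCompact (Ω : Set (Fin n → ℂ)) : Prop :=
  HasCompactInverse (LaplaceGraph (Dbar0 Ω) (Dbar1 Ω))

/-- The derivative of the real function `ρ` at `z` in the direction `w`. -/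
noncomputable def dirDeriv (ρ : (Fin n → ℂ) → ℝ) (z w : Fin n → ℂ) : ℝ := fderiv ℝ ρ z w

/-- The Levi form of `ρ` at `z` in the direction `w`:
`∑ ∂²ρ/∂z_j∂z̄_k (z) w_j w̄_k = (D²ρ(z)(w,w) + D²ρ(z)(iw,iw)) / 4`. -/
noncomputable def leviForm (ρ : (Fin n → ℂ) → ℝ) (z w : Fin n → ℂ) : ℝ :=
  (dirDeriv (fun y => dirDeriv ρ y w) z w + dirDeriv (fun y => dirDeriv ρ y (I • w)) z (I • w)) / 4

/-- `Ω` is a bounded domain with smooth boundary that is pseudoconvex (Levi pseudoconvex):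
it is bounded, connected, and has a global smooth defining function `ρ` with non-vanishing
differential on the boundary whose Levi form is non-negative on the complex tangent vectors at
every boundary point. -/
def IsSmoothPseudoconvexDomain (Ω : Set (Fin n → ℂ)) : Prop :=
  Bornology.IsBounded Ω ∧ IsConnected Ω ∧
    ∃ ρ : (Fin n → ℂ) → ℝ, ContDiff ℝ ∞ ρ ∧ Ω = {z | ρ z < 0} ∧
      (∀ z, ρ z = 0 → ∃ w, dirDeriv ρ z w ≠ 0) ∧
      ∀ z ∈ frontier Ω, ∀ w : Fin n → ℂ, dirDeriv ρ z w = 0 → dirDeriv ρ z (I • w) = 0 →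
        0 ≤ leviForm ρ z w

/-- The boundary of `Ω` contains a non-constant analytic disc. -/
def HasBoundaryDisc (Ω : Set (Fin n → ℂ)) : Prop :=
  ∃ f : ℂ → (Fin n → ℂ), DifferentiableOn ℂ f (Metric.ball 0 1) ∧
    (∀ ζ ∈ Metric.ball (0 : ℂ) 1, f ζ ∈ frontier Ω) ∧
    ∃ ζ₁ ∈ Metric.ball (0 : ℂ) 1, ∃ ζ₂ ∈ Metric.ball (0 : ℂ) 1, f ζ₁ ≠ f ζ₂

open Pool.Agent.DBar74

lemma dbar0_iff {Ω : Set (Fin n → ℂ)} (u : L2Fun Ω) (f : L2Form01 Ω) :
    Dbar0 Ω u f ↔ (u, f) ∈ TRel Ω one one := by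
  rw [mem_TRel]
  refine forall_congr' fun χ => forall_congr' fun hχ => forall_congr' fun j => ?_
  have hχ' : IsTest Ω χ := hχ
  have e1 : (fun x => ((one x : ℝ) : ℂ)⁻¹ * dzb j χ x) = dzb j χ := by
    ext x; simp [one]
  have e2 : (fun x => ((one x : ℝ) : ℂ)⁻¹ * χ x) = χ := by
    ext x; simp [one]
  rw [e1, e2, pr_apply (hχ'.dzb j).memLpr, pr_apply hχ'.memLpr, ← eq_neg_iff_add_eq_zero]
  rfl

lemma dbar1_iff {Ω : Set (Fin n → ℂ)} (f : L2Form01 Ω) (h : L2Form02 Ω) :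
    Dbar1 Ω f h ↔ (f, h) ∈ SRel Ω one one := by
  rw [mem_SRel]
  refine forall_congr' fun χ => forall_congr' fun hχ => forall_congr' fun p => ?_
  have hχ' : IsTest Ω χ := hχ
  have e1 : ∀ j : Fin n, (fun x => ((one x : ℝ) : ℂ)⁻¹ * dzb j χ x) = dzb j χ := by
    intro j; ext x; simp [one]
  have e2 : (fun x => ((one x : ℝ) : ℂ)⁻¹ * χ x) = χ := by
    ext x; simp [one]
  rw [e1, e1, e2, pr_apply (hχ'.dzb _).memLpr, pr_apply (hχ'.dzb _).memLpr,
    pr_apply hχ'.memLpr, ← eq_neg_iff_add_eq_zero]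
  have i1 : ∀ j k : Fin n, Integrable (fun x => f j x * dzb k χ x) (volume.restrict Ω) :=
    fun j k => integrable_L2_test (f j) (hχ'.dzb k)
  have e3 : ∫ x in Ω, (f p.1.2 x * dbarDeriv p.1.1 χ x - f p.1.1 x * dbarDeriv p.1.2 χ x)
      = (∫ x in Ω, f p.1.2 x * dzb p.1.1 χ x) - ∫ x in Ω, f p.1.1 x * dzb p.1.2 χ x :=
    integral_sub (i1 _ _) (i1 _ _)
  rw [e3]

lemma box_iff {Ω : Set (Fin n → ℂ)} (f γ : L2Form01 Ω) :
    LaplaceGraph (Dbar0 Ω) (Dbar1 Ω) f γ ↔ Box (TRel Ω one one) (SRel Ω one one) f γ := by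
  unfold LaplaceGraph Box
  refine exists_congr fun u => exists_congr fun h => exists_congr fun γ1 => exists_congr fun γ2 => ?_
  have a1 : IsAdjointPair (Dbar0 Ω) f u ↔ (f, u) ∈ AdjRel (TRel Ω one one) := by
    rw [mem_AdjRel]
    constructor
    · intro hA q hq
      exact hA q.1 q.2 ((dbar0_iff q.1 q.2).2 hq)
    · intro hA a b hab
      exact hA (a, b) ((dbar0_iff a b).1 hab)
  have a2 : IsAdjointPair (Dbar1 Ω) h γ2 ↔ (h, γ2) ∈ AdjRel (SRel Ω one one) := by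
    rw [mem_AdjRel]
    constructor
    · intro hA q hq
      exact hA q.1 q.2 ((dbar1_iff q.1 q.2).2 hq)
    · intro hA a b hab
      exact hA (a, b) ((dbar1_iff a b).1 hab)
  rw [a1, a2, dbar0_iff, dbar1_iff]
  tauto

lemma leviForm_eq {ρ : (Fin n → ℂ) → ℝ} (hρ : ContDiff ℝ ∞ ρ) (z w : Fin n → ℂ) :
    leviForm ρ z w = Lev ρ z w / 4 := by
  have h : ∀ v u : Fin n → ℂ, fderiv ℝ (fun y => fderiv ℝ ρ y v) z u = fderiv ℝ (fderiv ℝ ρ) z u v := by
    intro v u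
    have h1 : DifferentiableAt ℝ (fderiv ℝ ρ) z := diffAt_fderiv_of (contDiffAt_two hρ z)
    rw [fderiv_clm_apply h1 (differentiableAt_const v)]
    simp
  unfold leviForm dirDeriv Lev
  rw [h, h]

/-- **Main theorem.** In every dimension `n ≥ 3` there is a bounded pseudoconvex domain with smooth
boundary whose boundary contains a non-constant analytic disc and whose `∂̄`-Neumann operator
`N₁` exists and is compact. -/
theorem result (n : ℕ) (hn : 3 ≤ n) :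
    ∃ Ω : Set (Fin n → ℂ), IsSmoothPseudoconvexDomain Ω ∧ HasBoundaryDisc Ω ∧
      NeumannOperatorIsCompact Ω := by
  set i0 : Fin n := ⟨0, by omega⟩ with hi0
  set e : Fin n := ⟨1, by omega⟩ with he
  set i2 : Fin n := ⟨2, by omega⟩ with hi2
  have h0e : i0 ≠ e := by rw [hi0, he]; simp
  have h02 : i0 ≠ i2 := by rw [hi0, hi2]; simp
  have he2 : e ≠ i2 := by rw [he, hi2]; simp
  refine ⟨Om (rD i0 e), ⟨Om_isBounded h0e, Om_isConnected h0e, rD i0 e, rD_contDiff i0 e, rfl,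
    fun z hz => ?_, fun z hz w _ _ => ?_⟩, ?_, ?_⟩
  · by_contra hc
    push Not at hc
    exact rD_grad h0e hz (ContinuousLinearMap.ext hc)
  · have h := rD_psh h0e (frontier_zero hz).le w
    rw [leviForm_eq (rD_contDiff i0 e)]
    positivity
  · refine ⟨disc i0 i2 1, (disc_differentiable i0 i2).differentiableOn, fun ζ hζ => ?_,
      0, by simp, 1 / 2, ?_, ?_⟩
    · rw [mem_ball_zero_iff] at hζ
      exact disc_frontier h0e h02 he2 hζ.le
    · rw [mem_ball_zero_iff]; norm_num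
    · intro h
      have h1 := congrFun h i0
      unfold disc at h1
      rw [Pi.add_apply, Pi.add_apply, Pi.single_eq_same, Pi.single_eq_same] at h1
      have h2 := add_right_cancel h1
      norm_num at h2
  · obtain ⟨N, hN, hNc⟩ := (rD_good (n := n) h0e).main
    exact ⟨N, fun f γ => (hN f γ).trans (box_iff f γ).symm, hNc⟩

end Pool.Agent.Results.MP_54f31c_an.DiscCompactNeumann
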